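import Mathlib

namespace Pool.Agent.Results.MP_37c1b2_nt.ThreeQuarters

open Filter Finset Topology

/-- `A` contains no triple `n, 2n, 3n` with `n` a positive integer. -/
def TripleFree (A : Set ℕ) : Prop := ∀ n : ℕ, 1 ≤ n → ¬ (n ∈ A ∧ 2 * n ∈ A ∧ 3 * n ∈ A)

/-- The natural density of the set of positive integers `A` exists and equals `d`. -/
def HasDensity (A : Set ℕ) (d : ℝ) : Prop :=
  Tendsto (fun x : ℕ => ((A ∩ Set.Icc 1 x).ncard : ℝ) / (x : ℝ)) atTop (𝓝 d)

/-- `n` has even `3`-adic valuation. -/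
def ev (n : ℕ) : Prop := Even (padicValNat 3 n)

open Classical in
/-- The number of `n` in `[1, x]` with property `P`. -/
noncomputable def cnt (P : ℕ → Prop) (x : ℕ) : ℕ := ((Finset.Icc 1 x).filter P).card

lemma cnt_eq (P : ℕ → Prop) [DecidablePred P] (x : ℕ) :
    cnt P x = ((Finset.Icc 1 x).filter P).card := by
  unfold cnt
  congr

lemma cnt_le (P : ℕ → Prop) (x : ℕ) : cnt P x ≤ x := by
  classical
  rw [cnt_eq]
  calc _ ≤ (Finset.Icc 1 x).card := Finset.card_filter_le _ _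
    _ = x := by simp

lemma cnt_split (P Q : ℕ → Prop) (x : ℕ) :
    cnt (fun n => P n ∧ Q n) x + cnt (fun n => P n ∧ ¬ Q n) x = cnt P x := by
  classical
  rw [cnt_eq, cnt_eq, cnt_eq,
    ← Finset.card_filter_add_card_filter_not (s := (Finset.Icc 1 x).filter P) Q,
    Finset.filter_filter, Finset.filter_filter]

lemma val_two_mul {n : ℕ} (hn : 1 ≤ n) : padicValNat 3 (2 * n) = padicValNat 3 n := by
  have : Fact (Nat.Prime 3) := ⟨Nat.prime_three⟩
  rw [padicValNat.mul (by norm_num) (by omega), padicValNat.eq_zero_of_not_dvd (by norm_num : ¬ 3 ∣ 2),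
    zero_add]

lemma val_three_mul {n : ℕ} (hn : 1 ≤ n) : padicValNat 3 (3 * n) = padicValNat 3 n + 1 := by
  have : Fact (Nat.Prime 3) := ⟨Nat.prime_three⟩
  rw [padicValNat.mul (by norm_num) (by omega), padicValNat_self, add_comm]

lemma ev_two_mul {n : ℕ} (hn : 1 ≤ n) : ev (2 * n) ↔ ev n := by
  unfold ev
  rw [val_two_mul hn]

lemma ev_three_mul {n : ℕ} (hn : 1 ≤ n) : ev (3 * n) ↔ ¬ ev n := by
  unfold ev
  rw [val_three_mul hn, Nat.even_add_one]

lemma three_dvd_of_not_ev {n : ℕ} (h : ¬ ev n) : 3 ∣ n := by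
  have : Fact (Nat.Prime 3) := ⟨Nat.prime_three⟩
  by_contra hd
  apply h
  unfold ev
  rw [padicValNat.eq_zero_of_not_dvd hd]
  exact Even.zero

/-- The recursion for the counting function of the integers with even `3`-adic valuation. -/
lemma cnt_ev_rec (x : ℕ) : cnt ev x + cnt ev (x / 3) = x := by
  classical
  have h1 : cnt (fun n => True ∧ ev n) x + cnt (fun n => True ∧ ¬ ev n) x = cnt (fun _ => True) x :=
    cnt_split (fun _ => True) ev x
  have h2 : cnt (fun _ => True) x = x := by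
    rw [cnt_eq]
    simp
  have h3 : cnt (fun n => True ∧ ¬ ev n) x = cnt ev (x / 3) := by
    rw [cnt_eq, cnt_eq]
    symm
    apply Finset.card_bij (fun m _ => 3 * m)
    · intro m hm
      rw [Finset.mem_filter, Finset.mem_Icc] at hm ⊢
      refine ⟨⟨by omega, ?_⟩, trivial, ?_⟩
      · have := Nat.mul_div_le x 3
        omega
      · rw [ev_three_mul hm.1.1]
        exact not_not.2 hm.2
    · intro a _ b _ hab
      have hab' : 3 * a = 3 * b := hab
      omega
    · intro n hn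
      rw [Finset.mem_filter, Finset.mem_Icc] at hn
      obtain ⟨m, rfl⟩ := three_dvd_of_not_ev hn.2.2
      have hm : 1 ≤ m := by omega
      refine ⟨m, ?_, rfl⟩
      rw [Finset.mem_filter, Finset.mem_Icc]
      refine ⟨⟨hm, ?_⟩, ?_⟩
      · rw [Nat.le_div_iff_mul_le (by norm_num)]
        omega
      · have := hn.2.2
        rw [ev_three_mul hm, not_not] at this
        exact this
  have h4 : cnt (fun n => True ∧ ev n) x = cnt ev x := by
    rw [cnt_eq, cnt_eq]
    simp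
  rw [h2, h3, h4] at h1
  exact h1

lemma cnt_ev_bound (x : ℕ) : |(cnt ev x : ℝ) - 3 / 4 * x| ≤ Nat.log 2 x + 1 := by
  induction x using Nat.strong_induction_on with
  | _ x ih =>
    rcases Nat.lt_or_ge x 2 with hx | hx
    · have h1 := cnt_le ev x
      have h2 : (cnt ev x : ℝ) ≤ x := by exact_mod_cast h1
      have h3 : (0 : ℝ) ≤ cnt ev x := by positivity
      have h4 : (x : ℝ) ≤ 1 := by
        have : x ≤ 1 := by omega
        exact_mod_cast this
      have h5 : (0 : ℝ) ≤ (Nat.log 2 x : ℝ) := by positivity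
      rw [abs_le]
      constructor <;> linarith
    · have hlt : x / 3 < x := Nat.div_lt_self (by omega) (by norm_num)
      have h1 := ih (x / 3) hlt
      have h2 := cnt_ev_rec x
      have h3 : (cnt ev x : ℝ) + (cnt ev (x / 3) : ℝ) = x := by exact_mod_cast h2
      have h4 : Nat.log 2 (x / 3) + 1 ≤ Nat.log 2 x := by
        have h5 : Nat.log 2 (x / 3) ≤ Nat.log 2 (x / 2) := Nat.log_mono_right (by omega)
        have h6 : Nat.log 2 (x / 2) = Nat.log 2 x - 1 := Nat.log_div_base 2 x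
        have h7 : 1 ≤ Nat.log 2 x := Nat.log_pos (by norm_num) hx
        omega
      have h5 : (Nat.log 2 (x / 3) : ℝ) + 1 ≤ (Nat.log 2 x : ℝ) := by exact_mod_cast h4
      have h6 : 3 * (x / 3) + x % 3 = x := Nat.div_add_mod x 3
      have h7 : x % 3 < 3 := Nat.mod_lt _ (by norm_num)
      have h8 : (3 : ℝ) * ((x / 3 : ℕ) : ℝ) + ((x % 3 : ℕ) : ℝ) = x := by exact_mod_cast h6
      have h9 : ((x % 3 : ℕ) : ℝ) ≤ 2 := by
        have : x % 3 ≤ 2 := by omega
        exact_mod_cast this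
      have h10 : (0 : ℝ) ≤ ((x % 3 : ℕ) : ℝ) := by positivity
      rw [abs_le] at h1 ⊢
      constructor <;> linarith [h1.1, h1.2]

lemma tendsto_log_div : Tendsto (fun x : ℕ => ((Nat.log 2 x : ℝ) + 1) / (x : ℝ)) atTop (𝓝 0) := by
  have h1 : Tendsto (fun x : ℕ => Real.log (x : ℝ) / (x : ℝ)) atTop (𝓝 0) := by
    have := Real.isLittleO_log_id_atTop.tendsto_div_nhds_zero
    exact this.comp tendsto_natCast_atTop_atTop
  have h2 : Tendsto (fun x : ℕ => (1 : ℝ) / (x : ℝ)) atTop (𝓝 0) :=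
    tendsto_one_div_atTop_nhds_zero_nat
  have h3 : Tendsto (fun x : ℕ => Real.log (x : ℝ) / (x : ℝ) * (1 / Real.log 2) + 1 / (x : ℝ))
      atTop (𝓝 0) := by
    have := (h1.mul_const (1 / Real.log 2)).add h2
    simpa using this
  apply squeeze_zero' (Eventually.of_forall fun x => by positivity) _ h3
  filter_upwards [eventually_ge_atTop 1] with x hx
  have hx0 : (0 : ℝ) < x := by exact_mod_cast hx
  have hl2 : 0 < Real.log 2 := Real.log_pos (by norm_num)
  have h4 : (Nat.log 2 x : ℝ) ≤ Real.log x / Real.log 2 := by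
    rw [le_div_iff₀ hl2, ← Real.log_pow]
    apply Real.log_le_log (by positivity)
    exact_mod_cast Nat.pow_log_le_self 2 (by omega)
  rw [add_div]
  have h5 : (Nat.log 2 x : ℝ) / x ≤ Real.log (x : ℝ) / (x : ℝ) * (1 / Real.log 2) := by
    rw [div_le_iff₀ hx0]
    calc (Nat.log 2 x : ℝ) ≤ Real.log x / Real.log 2 := h4
      _ = Real.log (x : ℝ) / (x : ℝ) * (1 / Real.log 2) * x := by field_simp
  linarith

lemma tendsto_ev : Tendsto (fun x : ℕ => (cnt ev x : ℝ) / (x : ℝ)) atTop (𝓝 (3 / 4)) := by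
  rw [tendsto_iff_norm_sub_tendsto_zero]
  apply squeeze_zero' (Eventually.of_forall fun x => norm_nonneg _) _ tendsto_log_div
  filter_upwards [eventually_ge_atTop 1] with x hx
  have hx0 : (0 : ℝ) < x := by exact_mod_cast hx
  have h1 := cnt_ev_bound x
  rw [Real.norm_eq_abs]
  have h2 : (cnt ev x : ℝ) / x - 3 / 4 = ((cnt ev x : ℝ) - 3 / 4 * x) / x := by field_simp
  rw [h2, abs_div, abs_of_pos hx0]
  exact div_le_div_of_nonneg_right h1 hx0.le

lemma ncard_eq_cnt (A : Set ℕ) (x : ℕ) : (A ∩ Set.Icc 1 x).ncard = cnt (fun n => n ∈ A) x := by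
  classical
  rw [cnt_eq, ← Set.ncard_coe_finset]
  congr 1
  ext n
  simp only [Set.mem_inter_iff, Set.mem_Icc, Finset.coe_filter, Finset.mem_Icc, Set.mem_ofPred_eq]
  tauto

/-- The basic inequality: each `n` with even `3`-adic valuation has a multiple among `n, 2n, 3n`
outside `A`. -/
lemma basic (A : Set ℕ) (hA : TripleFree A) (x : ℕ) :
    cnt ev x ≤ cnt (fun n => n ∉ A ∧ ev n) x + cnt (fun n => n ∉ A ∧ ev n) (2 * x)
      + cnt (fun n => n ∉ A ∧ ¬ ev n) (3 * x) := by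
  classical
  set S1 := (Finset.Icc 1 x).filter (fun n => n ∉ A ∧ ev n) with hS1
  set S2 := (Finset.Icc 1 x).filter (fun n => 2 * n ∉ A ∧ ev n) with hS2
  set S3 := (Finset.Icc 1 x).filter (fun n => 3 * n ∉ A ∧ ev n) with hS3
  have h1 : (Finset.Icc 1 x).filter ev ⊆ S1 ∪ S2 ∪ S3 := by
    intro n hn
    rw [Finset.mem_filter] at hn
    have hn1 := (Finset.mem_Icc.1 hn.1).1
    have h := hA n hn1
    rw [Finset.mem_union, Finset.mem_union, hS1, hS2, hS3, Finset.mem_filter, Finset.mem_filter,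
      Finset.mem_filter]
    by_cases a1 : n ∈ A
    · by_cases a2 : 2 * n ∈ A
      · have a3 : 3 * n ∉ A := fun a3 => h ⟨a1, a2, a3⟩
        exact Or.inr ⟨hn.1, a3, hn.2⟩
      · exact Or.inl (Or.inr ⟨hn.1, a2, hn.2⟩)
    · exact Or.inl (Or.inl ⟨hn.1, a1, hn.2⟩)
  have h2 : S2.card ≤ cnt (fun n => n ∉ A ∧ ev n) (2 * x) := by
    rw [cnt_eq]
    apply Finset.card_le_card_of_injOn (fun n => 2 * n)
    · intro n hn
      rw [Finset.mem_coe, hS2, Finset.mem_filter, Finset.mem_Icc] at hn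
      rw [Finset.mem_coe, Finset.mem_filter, Finset.mem_Icc]
      have hn1 := hn.1.1
      have hn2 := hn.1.2
      refine ⟨⟨by show 1 ≤ 2 * n; omega, by show 2 * n ≤ 2 * x; omega⟩, hn.2.1, ?_⟩
      rw [ev_two_mul hn.1.1]
      exact hn.2.2
    · intro a _ b _ hab
      have hab' : 2 * a = 2 * b := hab
      omega
  have h3 : S3.card ≤ cnt (fun n => n ∉ A ∧ ¬ ev n) (3 * x) := by
    rw [cnt_eq]
    apply Finset.card_le_card_of_injOn (fun n => 3 * n)
    · intro n hn
      rw [Finset.mem_coe, hS3, Finset.mem_filter, Finset.mem_Icc] at hn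
      rw [Finset.mem_coe, Finset.mem_filter, Finset.mem_Icc]
      have hn1 := hn.1.1
      have hn2 := hn.1.2
      refine ⟨⟨by show 1 ≤ 3 * n; omega, by show 3 * n ≤ 3 * x; omega⟩, hn.2.1, ?_⟩
      rw [ev_three_mul hn.1.1, not_not]
      exact hn.2.2
    · intro a _ b _ hab
      have hab' : 3 * a = 3 * b := hab
      omega
  have h4 : S1.card = cnt (fun n => n ∉ A ∧ ev n) x := by rw [cnt_eq]
  have h5 : cnt ev x ≤ (S1 ∪ S2 ∪ S3).card := Finset.card_le_card h1
  have h6 : (S1 ∪ S2 ∪ S3).card ≤ S1.card + S2.card + S3.card :=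
    (Finset.card_union_le _ _).trans (Nat.add_le_add_right (Finset.card_union_le _ _) _)
  omega

/-- Telescoping over the grid `2^i 3^j`. -/
lemma grid (a : ℕ → ℕ → ℝ) (h0 : ∀ i j, 0 ≤ a i j) (h1 : ∀ i j, a i j ≤ 1) (N : ℕ) :
    ∑ i ∈ range N, ∑ j ∈ range N, (a i j + 2 * a (i + 1) j - 3 * a i (j + 1)) ≤ 5 * N := by
  have e1 : ∀ j, ∑ i ∈ range N, a (i + 1) j ≤ ∑ i ∈ range N, a i j + 1 := by
    intro j
    have h2 := Finset.sum_range_succ' (fun i => a i j) N
    have h3 := Finset.sum_range_succ (fun i => a i j) N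
    have h4 := h0 0 j
    have h5 := h1 N j
    linarith
  have e2 : ∀ i, ∑ j ∈ range N, a i j - 1 ≤ ∑ j ∈ range N, a i (j + 1) := by
    intro i
    have h2 := Finset.sum_range_succ' (fun j => a i j) N
    have h3 := Finset.sum_range_succ (fun j => a i j) N
    have h4 := h0 i N
    have h5 := h1 i 0
    linarith
  have e3 : ∑ i ∈ range N, ∑ j ∈ range N, a (i + 1) j ≤ ∑ i ∈ range N, ∑ j ∈ range N, a i j + N := by
    rw [Finset.sum_comm, Finset.sum_comm (f := fun i j => a i j)]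
    calc ∑ j ∈ range N, ∑ i ∈ range N, a (i + 1) j ≤ ∑ j ∈ range N, (∑ i ∈ range N, a i j + 1) :=
          Finset.sum_le_sum (fun j _ => e1 j)
      _ = _ := by rw [Finset.sum_add_distrib]; simp
  have e4 : ∑ i ∈ range N, ∑ j ∈ range N, a i j - N ≤ ∑ i ∈ range N, ∑ j ∈ range N, a i (j + 1) := by
    calc ∑ i ∈ range N, ∑ j ∈ range N, a i j - N = ∑ i ∈ range N, (∑ j ∈ range N, a i j - 1) := by
          rw [Finset.sum_sub_distrib]; simp
      _ ≤ _ := Finset.sum_le_sum (fun i _ => e2 i)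
  have e5 : ∑ i ∈ range N, ∑ j ∈ range N, (a i j + 2 * a (i + 1) j - 3 * a i (j + 1))
      = ∑ i ∈ range N, ∑ j ∈ range N, a i j + 2 * ∑ i ∈ range N, ∑ j ∈ range N, a (i + 1) j
        - 3 * ∑ i ∈ range N, ∑ j ∈ range N, a i (j + 1) := by
    simp only [Finset.sum_sub_distrib, Finset.sum_add_distrib, Finset.mul_sum]
  rw [e5]
  linarith

/-- Any triple free set with a natural density has density at most `3/4`. -/
lemma upper (A : Set ℕ) (hA : TripleFree A) (d : ℝ) (hd : HasDensity A d) : d ≤ 3 / 4 := by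
  classical
  -- density of the complement
  have hC : Tendsto (fun x : ℕ => (cnt (fun n => n ∉ A) x : ℝ) / (x : ℝ)) atTop (𝓝 (1 - d)) := by
    unfold HasDensity at hd
    have h1 : Tendsto (fun x : ℕ => 1 - ((A ∩ Set.Icc 1 x).ncard : ℝ) / (x : ℝ)) atTop
        (𝓝 (1 - d)) := hd.const_sub 1
    refine h1.congr' ?_
    filter_upwards [eventually_ge_atTop 1] with x hx
    have hx0 : (0 : ℝ) < x := by exact_mod_cast hx
    rw [ncard_eq_cnt]
    have h2 : cnt (fun n => n ∈ A) x + cnt (fun n => n ∉ A) x = x := by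
      have h3 := cnt_split (fun _ => True) (fun n => n ∈ A) x
      have h4 : cnt (fun _ => True) x = x := by rw [cnt_eq]; simp
      simp only [true_and] at h3
      omega
    have h5 : (cnt (fun n => n ∈ A) x : ℝ) + (cnt (fun n => n ∉ A) x : ℝ) = x := by
      exact_mod_cast h2
    rw [eq_div_iff hx0.ne', sub_mul, div_mul_cancel₀ _ hx0.ne']
    linarith
  by_contra hcon
  push Not at hcon
  set ε : ℝ := (d - 3 / 4) / 4 with hε
  have hε0 : 0 < ε := by rw [hε]; linarith
  -- the frequency of the elements of the complement with even valuation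
  set e : ℕ → ℝ := fun x => (cnt (fun n => n ∉ A ∧ ev n) x : ℝ) / (x : ℝ) with he
  have he0 : ∀ x, 0 ≤ e x := fun x => by simp only [he]; positivity
  have he1 : ∀ x, e x ≤ 1 := fun x => by
    simp only [he]
    apply div_le_one_of_le₀ _ (by positivity)
    exact_mod_cast cnt_le _ x
  have hev1 : ∀ᶠ x : ℕ in atTop, 3 / 4 - ε < (cnt ev x : ℝ) / (x : ℝ) :=
    tendsto_ev.eventually (lt_mem_nhds (by linarith))
  have hev2 : ∀ᶠ x : ℕ in atTop, (cnt (fun n => n ∉ A) x : ℝ) / (x : ℝ) < 1 - d + ε :=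
    hC.eventually (gt_mem_nhds (by linarith))
  obtain ⟨x₀, hx₀⟩ := eventually_atTop.1 (hev1.and (hev2.and (eventually_ge_atTop 1)))
  -- the inequality at each scale
  have hscale : ∀ x : ℕ, x₀ ≤ x → 3 / 4 - ε - 3 * (1 - d + ε) ≤ e x + 2 * e (2 * x) - 3 * e (3 * x) := by
    intro x hx
    obtain ⟨a1, -, a3⟩ := hx₀ x hx
    obtain ⟨-, b2, -⟩ := hx₀ (3 * x) (by omega)
    have hx0 : (0 : ℝ) < x := by exact_mod_cast a3
    have h1 := basic A hA x
    have h2 := cnt_split (fun n => n ∉ A) ev (3 * x)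
    have h3 : (cnt ev x : ℝ) ≤ (cnt (fun n => n ∉ A ∧ ev n) x : ℝ)
        + (cnt (fun n => n ∉ A ∧ ev n) (2 * x) : ℝ) + (cnt (fun n => n ∉ A ∧ ¬ ev n) (3 * x) : ℝ) := by
      exact_mod_cast h1
    have h4 : (cnt (fun n => n ∉ A ∧ ev n) (3 * x) : ℝ) + (cnt (fun n => n ∉ A ∧ ¬ ev n) (3 * x) : ℝ)
        = (cnt (fun n => n ∉ A) (3 * x) : ℝ) := by exact_mod_cast h2
    have c1 : (3 / 4 - ε) * x < cnt ev x := by
      rw [lt_div_iff₀ hx0] at a1
      exact a1
    have c2 : (cnt (fun n => n ∉ A) (3 * x) : ℝ) < (1 - d + ε) * (3 * x) := by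
      rw [div_lt_iff₀ (by push_cast; positivity)] at b2
      push_cast at b2
      exact b2
    have d1 : (cnt (fun n => n ∉ A ∧ ev n) x : ℝ) = e x * x := by
      simp only [he]; field_simp
    have d2 : (cnt (fun n => n ∉ A ∧ ev n) (2 * x) : ℝ) = e (2 * x) * (2 * x) := by
      simp only [he]; push_cast; field_simp
    have d3 : (cnt (fun n => n ∉ A ∧ ev n) (3 * x) : ℝ) = e (3 * x) * (3 * x) := by
      simp only [he]; push_cast; field_simp
    rw [d1, d2] at h3
    rw [d3] at h4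
    have h5 : (3 / 4 - ε - 3 * (1 - d + ε)) * x ≤ (e x + 2 * e (2 * x) - 3 * e (3 * x)) * x := by
      nlinarith
    exact le_of_mul_le_mul_right h5 hx0
  have hgrid : ∀ N : ℕ, ((N : ℝ) * N) * (3 / 4 - ε - 3 * (1 - d + ε)) ≤ 5 * N := by
    intro N
    have h1 := grid (fun i j => e (2 ^ i * 3 ^ j * x₀)) (fun i j => he0 _) (fun i j => he1 _) N
    refine le_trans ?_ h1
    calc ((N : ℝ) * N) * (3 / 4 - ε - 3 * (1 - d + ε))
        = ∑ i ∈ range N, ∑ j ∈ range N, (3 / 4 - ε - 3 * (1 - d + ε)) := by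
          simp only [Finset.sum_const, Finset.card_range, nsmul_eq_mul]
          ring
      _ ≤ _ := by
          apply Finset.sum_le_sum
          intro i _
          apply Finset.sum_le_sum
          intro j _
          have h2 : x₀ ≤ 2 ^ i * 3 ^ j * x₀ := Nat.le_mul_of_pos_left _ (by positivity)
          have h3 := hscale _ h2
          have h4 : 2 ^ (i + 1) * 3 ^ j * x₀ = 2 * (2 ^ i * 3 ^ j * x₀) := by ring
          have h5 : 2 ^ i * 3 ^ (j + 1) * x₀ = 3 * (2 ^ i * 3 ^ j * x₀) := by ring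
          simp only [h4, h5]
          exact h3
  have hpos : 3 / 4 - ε - 3 * (1 - d + ε) = 3 * (d - 3 / 4) - 4 * ε := by ring
  rw [hpos] at hgrid
  have h4e : 4 * ε = d - 3 / 4 := by rw [hε]; ring
  rw [h4e] at hgrid
  have hc0 : 0 < 3 * (d - 3 / 4) - (d - 3 / 4) := by linarith
  obtain ⟨N, hN⟩ := exists_nat_gt (5 / (3 * (d - 3 / 4) - (d - 3 / 4)))
  rw [div_lt_iff₀ hc0] at hN
  have h6 := hgrid (N + 1)
  have h7 : (0 : ℝ) < ((N + 1 : ℕ) : ℝ) := by positivity
  have h8 : ((N + 1 : ℕ) : ℝ) * (3 * (d - 3 / 4) - (d - 3 / 4)) ≤ 5 := by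
    have h9 : ((N + 1 : ℕ) : ℝ) * (3 * (d - 3 / 4) - (d - 3 / 4)) * ((N + 1 : ℕ) : ℝ)
        ≤ 5 * ((N + 1 : ℕ) : ℝ) := by linarith
    exact le_of_mul_le_mul_right h9 h7
  push_cast at h8
  nlinarith

/-- The supremum `δ*` of the problem is attained and equals `3/4`. -/
theorem result :
    IsGreatest {d : ℝ | ∃ A : Set ℕ, (∀ a ∈ A, 1 ≤ a) ∧ TripleFree A ∧ HasDensity A d} (3 / 4) := by
  constructor
  · refine ⟨{n | 1 ≤ n ∧ ev n}, fun a ha => ha.1, ?_, ?_⟩
    · rintro n hn ⟨h1, -, h3⟩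
      have h4 := h3.2
      rw [ev_three_mul hn] at h4
      exact h4 h1.2
    · unfold HasDensity
      refine tendsto_ev.congr ?_
      intro x
      classical
      have h : cnt (fun n => n ∈ ({n | 1 ≤ n ∧ ev n} : Set ℕ)) x = cnt ev x := by
        rw [cnt_eq, cnt_eq]
        congr 1
        apply Finset.filter_congr
        intro n hn
        have := (Finset.mem_Icc.1 hn).1
        exact ⟨fun h => h.2, fun h => ⟨this, h⟩⟩
      rw [ncard_eq_cnt, h]
  · rintro d ⟨A, -, hA, hd⟩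
    exact upper A hA d hd

end Pool.Agent.Results.MP_37c1b2_nt.ThreeQuarters
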